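import Mathlib

/-!
# Self-affine sets, Assouad dimension and lower dimension
-/

namespace Run7.h519

open Set Metric
open scoped ENNReal NNReal

/-- `F` is the attractor of the affine maps `x ↦ A i x + t i`: a nonempty compact set with
`F = ⋃ i, (A i F + t i)`. -/
def IsAttractor {d m : ℕ} (A : Fin m → EuclideanSpace ℝ (Fin d) →L[ℝ] EuclideanSpace ℝ (Fin d))
    (t : Fin m → EuclideanSpace ℝ (Fin d)) (F : Set (EuclideanSpace ℝ (Fin d))) : Prop :=
  F.Nonempty ∧ IsCompact F ∧ F = ⋃ i, (fun x => A i x + t i) '' F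

/-- `S` can be covered by `n` sets of diameter at most `r`. -/
def HasCover {X : Type*} [PseudoMetricSpace X] (S : Set X) (r : ℝ) (n : ℕ) : Prop :=
  ∃ U : Fin n → Set X, (∀ i, ediam (U i) ≤ ENNReal.ofReal r) ∧ S ⊆ ⋃ i, U i

/-- The covering number `N_r(S)`: the least number of sets of diameter at most `r` covering `S`
(`⊤` if there is no finite cover). -/
noncomputable def covNum {X : Type*} [PseudoMetricSpace X] (r : ℝ) (S : Set X) : ℝ≥0∞ :=
  ⨅ (n : ℕ) (_ : HasCover S r n), (n : ℝ≥0∞)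

/-- there is `C > 0` with `N_r(B(x,R) ∩ F) ≤ C (R/r)^s` for all `x ∈ F` and `0 < r < R`. -/
def AssouadBound {X : Type*} [PseudoMetricSpace X] (F : Set X) (s : ℝ≥0) : Prop :=
  ∃ C : ℝ, 0 < C ∧ ∀ x ∈ F, ∀ r R : ℝ, 0 < r → r < R →
    covNum r (closedBall x R ∩ F) ≤ ENNReal.ofReal (C * (R / r) ^ (s : ℝ))

/-- The Assouad dimension: the infimum of all `s ≥ 0` satisfying `AssouadBound F s`. -/
noncomputable def assouadDim {X : Type*} [PseudoMetricSpace X] (F : Set X) : ℝ≥0∞ :=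
  ⨅ (s : ℝ≥0) (_ : AssouadBound F s), (s : ℝ≥0∞)

/-- there is `C > 0` with `N_r(B(x,R) ∩ F) ≥ C (R/r)^s` for all `x ∈ F` and
`0 < r < R ≤ diam F`. -/
def LowerBound {X : Type*} [PseudoMetricSpace X] (F : Set X) (s : ℝ≥0) : Prop :=
  ∃ C : ℝ, 0 < C ∧ ∀ x ∈ F, ∀ r R : ℝ, 0 < r → r < R → ENNReal.ofReal R ≤ ediam F →
    ENNReal.ofReal (C * (R / r) ^ (s : ℝ)) ≤ covNum r (closedBall x R ∩ F)

/-- The lower dimension: the supremum of all `s ≥ 0` satisfying `LowerBound F s`. -/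
noncomputable def lowerDim {X : Type*} [PseudoMetricSpace X] (F : Set X) : ℝ≥0∞ :=
  ⨆ (s : ℝ≥0) (_ : LowerBound F s), (s : ℝ≥0∞)

end Run7.h519
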