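import Mathlib
import Pool.Agent.Run7.h519.AffDefs

/-!
# Existence and uniqueness of attractors
-/

namespace Run7.h519

open Set Metric TopologicalSpace
open scoped ENNReal NNReal

section gen

variable {X : Type*} [MetricSpace X] {m : ℕ} [NeZero m]

/-- the Hutchinson operator -/
noncomputable def hut (f : Fin m → X → X) (hf : ∀ i, Continuous (f i))
    (K : NonemptyCompacts X) : NonemptyCompacts X where
  carrier := ⋃ i, f i '' (K : Set X)
  isCompact' := isCompact_iUnion fun i => K.isCompact.image (hf i)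
  nonempty' := by
    obtain ⟨x, hx⟩ := K.nonempty
    exact ⟨f 0 x, mem_iUnion.2 ⟨0, x, hx, rfl⟩⟩

theorem half_eq : ((1 / 2 : ℝ≥0) : ℝ≥0∞) = 2⁻¹ := by
  rw [one_div, ENNReal.coe_inv (by norm_num)]; norm_num

theorem hut_aux (f : Fin m → X → X) (hf : ∀ i, LipschitzWith (1 / 2) (f i))
    (K L : NonemptyCompacts X) (c : ℝ≥0∞)
    (hc : 2⁻¹ * hausdorffEDist (K : Set X) (L : Set X) < c) :
    ∀ x ∈ (hut f (fun i => (hf i).continuous) K : Set X),
      ∃ y ∈ (hut f (fun i => (hf i).continuous) L : Set X), edist x y ≤ c := by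
  intro x hx
  obtain ⟨i, x', hx', rfl⟩ := mem_iUnion.1 hx
  have hlt : hausdorffEDist (K : Set X) (L : Set X) < 2 * c := by
    rw [mul_comm, ← div_eq_mul_inv] at hc
    rw [ENNReal.div_lt_iff (by norm_num) (by norm_num)] at hc
    rwa [mul_comm]
  obtain ⟨y', hy', hxy⟩ := exists_edist_lt_of_hausdorffEDist_lt hx' hlt
  refine ⟨f i y', mem_iUnion.2 ⟨i, y', hy', rfl⟩, ?_⟩
  calc edist (f i x') (f i y') ≤ ((1 / 2 : ℝ≥0) : ℝ≥0∞) * edist x' y' := hf i x' y'
    _ ≤ ((1 / 2 : ℝ≥0) : ℝ≥0∞) * (2 * c) := by gcongr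
    _ = c := by
      rw [← mul_assoc, half_eq, ENNReal.inv_mul_cancel (by norm_num) (by norm_num), one_mul]

theorem hut_contr (f : Fin m → X → X) (hf : ∀ i, LipschitzWith (1 / 2) (f i)) :
    ContractingWith (1 / 2) (hut f fun i => (hf i).continuous) := by
  refine ⟨by
    rw [← NNReal.coe_lt_coe]; norm_num, fun K L => ?_⟩
  rw [half_eq]
  refine le_of_forall_gt fun c hc => ?_
  obtain ⟨c', hc1, hc2⟩ := exists_between hc
  refine lt_of_le_of_lt ?_ hc2
  change hausdorffEDist _ _ ≤ c'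
  change 2⁻¹ * hausdorffEDist (K : Set X) (L : Set X) < c' at hc1
  refine hausdorffEDist_le_of_mem_edist (hut_aux f hf K L c' hc1) ?_
  rw [hausdorffEDist_comm] at hc1
  exact hut_aux f hf L K c' hc1

theorem exists_unique_fixed [CompleteSpace X] [Nonempty X] (f : Fin m → X → X)
    (hf : ∀ i, LipschitzWith (1 / 2) (f i)) :
    ∃! F : Set X, F.Nonempty ∧ IsCompact F ∧ F = ⋃ i, f i '' F := by
  have h := hut_contr f hf
  let K := ContractingWith.fixedPoint _ h
  have hK : hut f (fun i => (hf i).continuous) K = K := h.fixedPoint_isFixedPt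
  refine ⟨K, ⟨K.nonempty, K.isCompact, ?_⟩, ?_⟩
  · conv_lhs => rw [← hK]
    rfl
  · rintro F ⟨h1, h2, h3⟩
    let L : NonemptyCompacts X := ⟨⟨F, h2⟩, h1⟩
    have hL : hut f (fun i => (hf i).continuous) L = L := by
      apply NonemptyCompacts.ext
      exact h3.symm
    have := h.fixedPoint_unique (x := L) hL
    change (L : Set X) = K
    rw [this]

end gen

theorem existsUnique_attractor {d m : ℕ} [NeZero m]
    (A : Fin m → EuclideanSpace ℝ (Fin d) →L[ℝ] EuclideanSpace ℝ (Fin d))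
    (hA : ∀ i, ‖A i‖ < 1 / 2)
    (t : Fin m → EuclideanSpace ℝ (Fin d)) : ∃! F, IsAttractor A t F := by
  refine exists_unique_fixed (fun i x => A i x + t i) fun i => ?_
  refine LipschitzWith.of_dist_le_mul fun x y => ?_
  rw [dist_add_right, dist_eq_norm, dist_eq_norm, ← map_sub]
  refine ((A i).le_opNorm _).trans ?_
  gcongr
  exact (hA i).le

end Run7.h519
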