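import Mathlib
import Pool.Agent.Run7.h519.AffDefs

/-!
# The example: nine homotheties and one diagonal map of the plane
-/

namespace Run7.h519

open Set Metric
open scoped ENNReal NNReal

/-- the plane -/
abbrev P2 := EuclideanSpace ℝ (Fin 2)

theorem norm_le_coord (z : P2) : ‖z‖ ≤ |z 0| + |z 1| := by
  rw [EuclideanSpace.norm_eq, Fin.sum_univ_two]
  apply Real.sqrt_le_iff.2
  constructor
  · positivity
  · simp only [Real.norm_eq_abs]
    nlinarith [abs_nonneg (z 0), abs_nonneg (z 1), mul_nonneg (abs_nonneg (z 0)) (abs_nonneg (z 1))]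

theorem coord_le_norm (z : P2) (k : Fin 2) : |z k| ≤ ‖z‖ := by
  have := EuclideanSpace.norm_eq z
  rw [this, Fin.sum_univ_two]
  apply Real.le_sqrt_of_sq_le
  simp only [Real.norm_eq_abs, sq_abs]
  fin_cases k
  · simp; positivity
  · simp; positivity

/-- the diagonal map with entries `2/5` and `β` -/
noncomputable def Dg (β : ℝ) : P2 →L[ℝ] P2 :=
  Matrix.toEuclideanCLM (n := Fin 2) (𝕜 := ℝ) (Matrix.diagonal ![2 / 5, β])

theorem Dg_apply (β : ℝ) (z : P2) (k : Fin 2) : Dg β z k = (![2 / 5, β] k) * z k := by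
  simp only [Dg]
  rw [Matrix.ofLp_toEuclideanCLM, Matrix.mulVec_diagonal]

theorem Dg_zero (β : ℝ) (z : P2) : Dg β z 0 = 2 / 5 * z 0 := by simp [Dg_apply]
theorem Dg_one (β : ℝ) (z : P2) : Dg β z 1 = β * z 1 := by simp [Dg_apply]

/-- the inverse diagonal map -/
noncomputable def Di (β : ℝ) : P2 →L[ℝ] P2 :=
  Matrix.toEuclideanCLM (n := Fin 2) (𝕜 := ℝ) (Matrix.diagonal ![5 / 2, β⁻¹])

theorem Di_apply (β : ℝ) (z : P2) (k : Fin 2) : Di β z k = (![5 / 2, β⁻¹] k) * z k := by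
  simp only [Di]
  rw [Matrix.ofLp_toEuclideanCLM, Matrix.mulVec_diagonal]

theorem Dg_unit {β : ℝ} (hβ : β ≠ 0) : IsUnit (Dg β) := by
  refine ⟨⟨Dg β, Di β, ?_, ?_⟩, rfl⟩
  · ext z k
    rw [mul_apply_eq_comp, Dg_apply, Di_apply]
    fin_cases k
    · simp; ring
    · simp [hβ]
  · ext z k
    rw [mul_apply_eq_comp, Di_apply, Dg_apply]
    fin_cases k
    · simp; ring
    · simp [hβ]

theorem Dg_norm_le {β : ℝ} (hβ0 : 0 ≤ β) (hβ : β ≤ 2 / 5) (z : P2) : ‖Dg β z‖ ≤ 2 / 5 * ‖z‖ := by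
  rw [EuclideanSpace.norm_eq, EuclideanSpace.norm_eq, Fin.sum_univ_two, Fin.sum_univ_two]
  simp only [Real.norm_eq_abs, sq_abs, Dg_zero, Dg_one]
  rw [show (2 / 5 : ℝ) = √((2 / 5) ^ 2) by rw [Real.sqrt_sq (by norm_num)],
    ← Real.sqrt_mul (by positivity)]
  apply Real.sqrt_le_sqrt
  rw [Real.sqrt_sq (by norm_num)]
  have : β ^ 2 ≤ (2 / 5) ^ 2 := by gcongr
  nlinarith [sq_nonneg (z 1), sq_nonneg (z 0), mul_le_mul_of_nonneg_right this (sq_nonneg (z 1))]

theorem Dg_norm {β : ℝ} (hβ0 : 0 ≤ β) (hβ : β ≤ 2 / 5) : ‖Dg β‖ ≤ 2 / 5 :=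
  ContinuousLinearMap.opNorm_le_bound _ (by norm_num) (Dg_norm_le hβ0 hβ)

/-- the linear parts -/
noncomputable def AA (i : Fin 10) : P2 →L[ℝ] P2 := Dg (if i = 0 then 1 / 5 else 2 / 5)

/-- the vertical contraction -/
noncomputable def be (i : Fin 10) : ℝ := if i = 0 then 1 / 5 else 2 / 5

theorem be_pos (i : Fin 10) : 0 < be i := by unfold be; split_ifs <;> norm_num
theorem be_le (i : Fin 10) : be i ≤ 2 / 5 := by unfold be; split_ifs <;> norm_num
theorem be_ge (i : Fin 10) : 1 / 5 ≤ be i := by unfold be; split_ifs <;> norm_num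

theorem AA_eq (i : Fin 10) : AA i = Dg (be i) := rfl

theorem AA_norm (i : Fin 10) : ‖AA i‖ < 1 / 2 :=
  (Dg_norm (be_pos i).le (be_le i)).trans_lt (by norm_num)

theorem AA_unit (i : Fin 10) : IsUnit (AA i) := Dg_unit (be_pos i).ne'

/-- a compact set contained in the union of its images is contained in the attractor -/
theorem sub_attractor {t : Fin 10 → P2} {F S : Set P2} (hF : IsAttractor AA t F)
    (hS : IsCompact S) (hsub : ∀ z ∈ S, ∃ i, ∃ w ∈ S, z = AA i w + t i) : S ⊆ F := by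
  rcases S.eq_empty_or_nonempty with rfl | hne
  · exact empty_subset _
  obtain ⟨hF1, hF2, hF3⟩ := hF
  obtain ⟨z, hz, hmax⟩ := hS.exists_isMaxOn hne (continuous_infDist_pt F).continuousOn
  have hzero : infDist z F ≤ 0 := by
    obtain ⟨i, w, hw, rfl⟩ := hsub z hz
    obtain ⟨p, hp, hpd⟩ := hF2.exists_infDist_eq_dist hF1 w
    have h1 : AA i p + t i ∈ F := by
      rw [hF3]
      exact mem_iUnion.2 ⟨i, p, hp, rfl⟩
    have h2 : infDist (AA i w + t i) F ≤ 2 / 5 * infDist w F := by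
      refine (infDist_le_dist_of_mem h1).trans ?_
      rw [hpd, dist_add_right, dist_eq_norm, dist_eq_norm, ← map_sub, AA_eq]
      exact Dg_norm_le (be_pos i).le (be_le i) _
    have h3 : infDist w F ≤ infDist (AA i w + t i) F := hmax hw
    nlinarith [infDist_nonneg (x := w) (s := F)]
  intro y hy
  have h4 : infDist y F ≤ infDist z F := hmax hy
  have h5 : infDist y F = 0 := le_antisymm (h4.trans hzero) infDist_nonneg
  rw [← hF2.isClosed.closure_eq]
  exact (mem_closure_iff_infDist_zero hF1).2 h5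

theorem mem_of {t : Fin 10 → P2} {F : Set P2} (hF : IsAttractor AA t F) {z : P2} (hz : z ∈ F) :
    ∃ i, ∃ w ∈ F, z = AA i w + t i := by
  have h := hF.2.2
  rw [h] at hz
  obtain ⟨i, w, hw, rfl⟩ := mem_iUnion.1 hz
  exact ⟨i, w, hw, rfl⟩

theorem map_mem {t : Fin 10 → P2} {F : Set P2} (hF : IsAttractor AA t F) {z : P2} (hz : z ∈ F)
    (i : Fin 10) : AA i z + t i ∈ F := by
  have h := hF.2.2
  rw [h]
  exact mem_iUnion.2 ⟨i, z, hz, rfl⟩

/-- the first coordinates are `2/5 x + t` -/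
theorem fst_map (t : Fin 10 → P2) (i : Fin 10) (w : P2) :
    (AA i w + t i) 0 = 2 / 5 * w 0 + t i 0 := by
  simp [AA_eq, Dg_zero]

theorem snd_map (t : Fin 10 → P2) (i : Fin 10) (w : P2) :
    (AA i w + t i) 1 = be i * w 1 + t i 1 := by
  simp [AA_eq, Dg_one]

theorem coord_map (t : Fin 10 → P2) (i : Fin 10) (w : P2) (k : Fin 2) :
    ∃ b : ℝ, 1 / 5 ≤ b ∧ b ≤ 2 / 5 ∧ (AA i w + t i) k = b * w k + t i k := by
  fin_cases k
  · exact ⟨2 / 5, by norm_num, le_rfl, fst_map t i w⟩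
  · exact ⟨be i, be_ge i, be_le i, snd_map t i w⟩

/-- the attractor lies in a box -/
theorem box {t : Fin 10 → P2} {F : Set P2} (hF : IsAttractor AA t F)
    (ht : ∀ i k, -(11 / 100) ≤ t i k ∧ t i k ≤ 61 / 100) {z : P2} (hz : z ∈ F) (k : Fin 2) :
    -(1 / 5) ≤ z k ∧ z k ≤ 11 / 10 := by
  have hcont : Continuous fun z : P2 => z k := by fun_prop
  constructor
  · obtain ⟨y, hy, hmin⟩ := hF.2.1.exists_isMinOn hF.1 hcont.continuousOn
    obtain ⟨i, w, hw, hyw⟩ := mem_of hF hy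
    obtain ⟨b, hb1, hb2, hb3⟩ := coord_map t i w k
    have h1 : y k ≤ w k := hmin hw
    have h2 : y k ≤ z k := hmin hz
    rw [← hyw] at hb3
    have := (ht i k).1
    by_contra hcon
    push Not at hcon
    nlinarith
  · obtain ⟨y, hy, hmin⟩ := hF.2.1.exists_isMaxOn hF.1 hcont.continuousOn
    obtain ⟨i, w, hw, hyw⟩ := mem_of hF hy
    obtain ⟨b, hb1, hb2, hb3⟩ := coord_map t i w k
    have h1 : w k ≤ y k := hmin hw
    have h2 : z k ≤ y k := hmin hz
    rw [← hyw] at hb3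
    have := (ht i k).2
    by_contra hcon
    push Not at hcon
    nlinarith

/-- centres of the nine homotheties (index `1 … 9`) and of the special map (index `0`) -/
noncomputable def cen (x₀ : ℝ) (i : Fin 10) (k : Fin 2) : ℝ :=
  if i = 0 then (if k = 0 then x₀ else 2 / 5)
  else (if k = 0 then 3 / 10 * (((i : ℕ) - 1) / 3 : ℕ) else 3 / 10 * (((i : ℕ) - 1) % 3 : ℕ))

/-- parameters near `cen x₀` -/
def UU (x₀ : ℝ) : Set (Fin 10 → P2) := {t | ∀ i k, |t i k - cen x₀ i k| < 1 / 100}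

theorem isOpen_UU (x₀ : ℝ) : IsOpen (UU x₀) := by
  have : UU x₀ = ⋂ i, ⋂ k, {t : Fin 10 → P2 | |t i k - cen x₀ i k| < 1 / 100} := by
    ext t; simp [UU]
  rw [this]
  refine isOpen_iInter_of_finite fun i => isOpen_iInter_of_finite fun k => ?_
  refine isOpen_lt ?_ continuous_const
  fun_prop

theorem UU_nonempty (x₀ : ℝ) : (UU x₀).Nonempty := by
  refine ⟨fun i => WithLp.toLp 2 (cen x₀ i), fun i k => ?_⟩
  simp

theorem volume_UU (x₀ : ℝ) : 0 < MeasureTheory.volume (UU x₀) :=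
  (isOpen_UU x₀).measure_pos _ (UU_nonempty x₀)

end Run7.h519
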