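import Mathlib
import Pool.Agent.Run7.h519.AffMain

/-!
# Dimension estimates
-/

namespace Run7.h519

open Set Metric
open scoped ENNReal NNReal

section gen
variable {X : Type*} [PseudoMetricSpace X]

theorem covNum_mono {r : ℝ} {S T : Set X} (h : S ⊆ T) : covNum r S ≤ covNum r T := by
  refine le_iInf₂ fun n hn => ?_
  obtain ⟨U, h1, h2⟩ := hn
  exact iInf₂_le n ⟨U, h1, h.trans h2⟩

theorem card_le_covNum {r : ℝ} (hr : 0 ≤ r) {S : Set X} {ι : Type*} [Fintype ι] (y : ι → X)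
    (hy : ∀ i, y i ∈ S) (hsep : ∀ i j, i ≠ j → r < dist (y i) (y j)) :
    (Fintype.card ι : ℝ≥0∞) ≤ covNum r S := by
  refine le_iInf₂ fun n hn => ?_
  obtain ⟨U, h1, h2⟩ := hn
  have hmem : ∀ i, ∃ k, y i ∈ U k := fun i => by simpa using h2 (hy i)
  choose k hk using hmem
  have hinj : Function.Injective k := by
    intro i j hij
    by_contra hne
    have h3 := hsep i j hne
    have h4 : edist (y i) (y j) ≤ ENNReal.ofReal r :=
      (edist_le_ediam_of_mem (hk i) (hij ▸ hk j)).trans (h1 _)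
    rw [edist_dist, ENNReal.ofReal_le_ofReal_iff hr] at h4
    linarith
  have := Fintype.card_le_of_injective k hinj
  rw [Fintype.card_fin] at this
  exact_mod_cast this

theorem covNum_le {r : ℝ} {S : Set X} {n : ℕ} (h : HasCover S r n) : covNum r S ≤ n :=
  iInf₂_le n h

end gen

/-- `S` contains a closed axis-parallel square of side `L` -/
def HasSq (S : Set P2) (L : ℝ) : Prop :=
  ∃ a : Fin 2 → ℝ, ∀ z : P2, (∀ k, a k ≤ z k ∧ z k ≤ a k + L) → z ∈ S

theorem HasSq.mono {S T : Set P2} {L L' : ℝ} (h : HasSq S L) (hST : S ⊆ T) (hL : L' ≤ L) :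
    HasSq T L' := by
  obtain ⟨a, ha⟩ := h
  exact ⟨a, fun z hz => hST (ha z fun k => ⟨(hz k).1, by linarith [(hz k).2]⟩)⟩

theorem HasSq.covNum_ge {S : Set P2} {L r : ℝ} (h : HasSq S L) (hL : 0 ≤ L) (hr : 0 < r) :
    ENNReal.ofReal ((L / (2 * r)) ^ 2) ≤ covNum r S := by
  obtain ⟨a, ha⟩ := h
  set M := ⌊L / (2 * r)⌋₊ + 1 with hM
  let y : Fin M × Fin M → P2 := fun p =>
    WithLp.toLp 2 ![a 0 + 2 * r * (p.1 : ℕ), a 1 + 2 * r * (p.2 : ℕ)]
  have hbd : ∀ j : Fin M, 2 * r * (j : ℕ) ≤ L := by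
    intro j
    have h1 : (j : ℕ) ≤ ⌊L / (2 * r)⌋₊ := by have := j.2; omega
    have h2 : ((j : ℕ) : ℝ) ≤ L / (2 * r) :=
      (Nat.cast_le.2 h1).trans (Nat.floor_le (by positivity))
    rw [le_div_iff₀ (by positivity)] at h2
    linarith
  have hy : ∀ p, y p ∈ S := by
    intro p
    refine ha _ fun k => ?_
    fin_cases k
    · have := hbd p.1
      have h0 : 0 ≤ 2 * r * ((p.1 : ℕ) : ℝ) := by positivity
      simp only [y]
      constructor <;> simp <;> linarith
    · have := hbd p.2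
      have h0 : 0 ≤ 2 * r * ((p.2 : ℕ) : ℝ) := by positivity
      simp only [y]
      constructor <;> simp <;> linarith
  have key : ∀ i j : Fin M, i ≠ j → r < |2 * r * ((i : ℕ) : ℝ) - 2 * r * ((j : ℕ) : ℝ)| := by
    intro i j hij
    rw [← mul_sub, abs_mul, abs_of_pos (by positivity : 0 < 2 * r)]
    have h1 : (1 : ℝ) ≤ |((i : ℕ) : ℝ) - ((j : ℕ) : ℝ)| := by
      have h2 : ((i : ℕ) : ℤ) - ((j : ℕ) : ℤ) ≠ 0 := by
        intro h
        apply hij
        ext
        omega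
      have h3 := Int.one_le_abs h2
      have : ((1 : ℤ) : ℝ) ≤ ((|((i : ℕ) : ℤ) - ((j : ℕ) : ℤ)| : ℤ) : ℝ) := Int.cast_le.2 h3
      simpa using this
    nlinarith
  have hsep : ∀ p q, p ≠ q → r < dist (y p) (y q) := by
    intro p q hpq
    rw [dist_eq_norm]
    by_cases h1 : p.1 = q.1
    · have h2 : p.2 ≠ q.2 := fun h => hpq (Prod.ext h1 h)
      refine lt_of_lt_of_le ?_ (coord_le_norm _ 1)
      have := key _ _ h2
      simpa [y] using this
    · refine lt_of_lt_of_le ?_ (coord_le_norm _ 0)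
      have := key _ _ h1
      simpa [y] using this
  refine le_trans ?_ (card_le_covNum hr.le y hy hsep)
  rw [Fintype.card_prod, Fintype.card_fin]
  have h5 : L / (2 * r) ≤ M := by
    have := (Nat.lt_floor_add_one (L / (2 * r))).le
    rw [hM]; push_cast; exact this
  have h6 : (L / (2 * r)) ^ 2 ≤ ((M * M : ℕ) : ℝ) := by
    push_cast
    rw [sq]
    have : 0 ≤ L / (2 * r) := by positivity
    gcongr
  calc ENNReal.ofReal ((L / (2 * r)) ^ 2) ≤ ENNReal.ofReal ((M * M : ℕ) : ℝ) :=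
        ENNReal.ofReal_le_ofReal h6
    _ = ((M * M : ℕ) : ℝ≥0∞) := ENNReal.ofReal_natCast _

/-- the square `[1/20, 19/20]²` -/
def QQ : Set P2 := {z | ∀ k, 1 / 20 ≤ z k ∧ z k ≤ 19 / 20}

theorem isCompact_QQ : IsCompact QQ := by
  refine Metric.isCompact_of_isClosed_isBounded ?_ ?_
  · have : QQ = ⋂ k, {z : P2 | 1 / 20 ≤ z k} ∩ {z : P2 | z k ≤ 19 / 20} := by
      ext z; simp [QQ]
    rw [this]
    refine isClosed_iInter fun k => IsClosed.inter ?_ ?_
    · exact isClosed_le continuous_const (by fun_prop)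
    · exact isClosed_le (by fun_prop) continuous_const
  · refine (isBounded_iff_forall_norm_le).2 ⟨2, fun z hz => ?_⟩
    refine (norm_le_coord z).trans ?_
    have h0 := hz 0
    have h1 := hz 1
    rw [abs_of_nonneg (by linarith), abs_of_nonneg (by linarith)]
    linarith

theorem hasSq_QQ : HasSq QQ (9 / 10) :=
  ⟨fun _ => 1 / 20, fun z hz k => ⟨(hz k).1, by linarith [(hz k).2]⟩⟩

theorem idx (g : Fin 2 → Fin 3) : ∃ i : Fin 10, i ≠ 0 ∧
    ∀ x₀ k, cen x₀ i k = 3 / 10 * ((g k : ℕ) : ℝ) := by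
  have h0 := (g 0).2
  have h1 := (g 1).2
  refine ⟨⟨1 + 3 * (g 0 : ℕ) + (g 1 : ℕ), by omega⟩, ?_, fun x₀ k => ?_⟩
  · intro h
    have := congrArg Fin.val h
    simp at this
  · have hne : (⟨1 + 3 * (g 0 : ℕ) + (g 1 : ℕ), by omega⟩ : Fin 10) ≠ 0 := by
      intro h
      have := congrArg Fin.val h
      simp at this
    unfold cen
    rw [if_neg hne]
    fin_cases k
    · simp only [Fin.zero_eta, Fin.isValue, if_true]
      congr 2
      omega
    · simp only [Fin.mk_one, Fin.isValue, one_ne_zero, if_false]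
      congr 2
      omega

theorem QQ_sub {x₀ : ℝ} {t : Fin 10 → P2} {F : Set P2} (hF : IsAttractor AA t F)
    (ht : t ∈ UU x₀) : QQ ⊆ F := by
  refine sub_attractor hF isCompact_QQ fun z hz => ?_
  have hd : ∀ k : Fin 2, ∃ g : Fin 3, 3 / 10 * ((g : ℕ) : ℝ) + 1 / 20 ≤ z k ∧
      z k ≤ 3 / 10 * ((g : ℕ) : ℝ) + 7 / 20 := by
    intro k
    obtain ⟨h1, h2⟩ := hz k
    by_cases ha : z k ≤ 7 / 20
    · exact ⟨0, by simpa using h1, by simpa using ha⟩
    · by_cases hb : z k ≤ 13 / 20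
      · refine ⟨1, ?_, ?_⟩ <;> simp <;> push Not at ha <;> linarith
      · refine ⟨2, ?_, ?_⟩ <;> simp <;> push Not at ha hb <;> linarith
  choose g hg using hd
  obtain ⟨i, hi0, hi⟩ := idx g
  refine ⟨i, WithLp.toLp 2 fun k => 5 / 2 * (z k - t i k), fun k => ?_, ?_⟩
  · have h1 := ht i k
    rw [hi x₀ k, abs_lt] at h1
    have h2 := hg k
    simp only [PiLp.toLp_apply]
    constructor <;> linarith
  · have hb : be i = 2 / 5 := by simp [be, hi0]
    ext k
    fin_cases k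
    · have := fst_map t i (WithLp.toLp 2 fun k => 5 / 2 * (z k - t i k))
      simp only [Fin.zero_eta]
      rw [this]
      simp only [PiLp.toLp_apply]
      ring
    · have := snd_map t i (WithLp.toLp 2 fun k => 5 / 2 * (z k - t i k))
      simp only [Fin.mk_one]
      rw [this, hb]
      simp only [PiLp.toLp_apply]
      ring

theorem cen_bounds {x₀ : ℝ} (h1 : -(1 / 10) ≤ x₀) (h2 : x₀ ≤ 3 / 5) (i : Fin 10) (k : Fin 2) :
    -(1 / 10) ≤ cen x₀ i k ∧ cen x₀ i k ≤ 3 / 5 := by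
  unfold cen
  split_ifs
  · exact ⟨h1, h2⟩
  · norm_num
  · have : (((i : ℕ) - 1) / 3 : ℕ) ≤ 2 := by have := i.2; omega
    have h3 : ((((i : ℕ) - 1) / 3 : ℕ) : ℝ) ≤ 2 := by exact_mod_cast this
    have h4 : (0 : ℝ) ≤ ((((i : ℕ) - 1) / 3 : ℕ) : ℝ) := Nat.cast_nonneg _
    constructor <;> linarith
  · have : (((i : ℕ) - 1) % 3 : ℕ) ≤ 2 := by omega
    have h3 : ((((i : ℕ) - 1) % 3 : ℕ) : ℝ) ≤ 2 := by exact_mod_cast this
    have h4 : (0 : ℝ) ≤ ((((i : ℕ) - 1) % 3 : ℕ) : ℝ) := Nat.cast_nonneg _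
    constructor <;> linarith

theorem cen_nonneg {x₀ : ℝ} {i : Fin 10} (hi : i ≠ 0) (k : Fin 2) : 0 ≤ cen x₀ i k := by
  unfold cen
  rw [if_neg hi]
  split_ifs <;> positivity

theorem t_bounds {x₀ : ℝ} (h1 : -(1 / 10) ≤ x₀) (h2 : x₀ ≤ 3 / 5) {t : Fin 10 → P2}
    (ht : t ∈ UU x₀) (i : Fin 10) (k : Fin 2) : -(11 / 100) ≤ t i k ∧ t i k ≤ 61 / 100 := by
  have h3 := cen_bounds h1 h2 i k
  have h4 := ht i k
  rw [abs_lt] at h4
  constructor <;> linarith

/-- if `F` contains the square then its Assouad dimension is at least two -/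
theorem two_le_assouadDim {F : Set P2} (hQ : QQ ⊆ F) : 2 ≤ assouadDim F := by
  refine le_iInf₂ fun s hs => ?_
  obtain ⟨C, hC, hb⟩ := hs
  by_contra hcon
  push Not at hcon
  have hs2 : (s : ℝ) < 2 := by exact_mod_cast hcon
  -- the centre
  set c : P2 := WithLp.toLp 2 fun _ => 1 / 2 with hc
  have hcF : c ∈ F := hQ fun k => by simp only [hc, PiLp.toLp_apply]; norm_num
  have hball : QQ ⊆ closedBall c 1 ∩ F := by
    refine subset_inter (fun z hz => ?_) hQ
    rw [mem_closedBall, dist_eq_norm]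
    refine (norm_le_coord _).trans ?_
    have h0 := hz 0
    have h1 := hz 1
    have e0 : |(z - c) 0| ≤ 9 / 20 := by
      rw [abs_le]; simp [hc]; constructor <;> linarith
    have e1 : |(z - c) 1| ≤ 9 / 20 := by
      rw [abs_le]; simp [hc]; constructor <;> linarith
    linarith
  have key : ∀ n : ℕ, (9 / 20) ^ 2 * ((n : ℝ) + 2) ^ (2 - (s : ℝ)) ≤ C := by
    intro n
    have hn : (0 : ℝ) < (n : ℝ) + 2 := by positivity
    have h1 := hb c hcF (1 / ((n : ℝ) + 2)) 1 (by positivity)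
      (by rw [div_lt_one hn]; linarith [Nat.cast_nonneg (α := ℝ) n])
    have h2 := (hasSq_QQ.covNum_ge (by norm_num) (by positivity : 0 < 1 / ((n : ℝ) + 2))).trans
      ((covNum_mono hball).trans h1)
    rw [ENNReal.ofReal_le_ofReal_iff (by positivity)] at h2
    have h3 : (1 : ℝ) / (1 / ((n : ℝ) + 2)) = (n : ℝ) + 2 := by field_simp
    have h4 : (9 / 10 / (2 * (1 / ((n : ℝ) + 2)))) = 9 / 20 * ((n : ℝ) + 2) := by
      field_simp; norm_num
    rw [h3, h4, mul_pow] at h2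
    rw [Real.rpow_sub hn, ← mul_div_assoc, div_le_iff₀ (by positivity)]
    calc (9 / 20 : ℝ) ^ 2 * ((n : ℝ) + 2) ^ (2 : ℝ) = (9 / 20) ^ 2 * ((n : ℝ) + 2) ^ 2 := by
          norm_cast
      _ ≤ _ := h2
  have htend : Filter.Tendsto (fun n : ℕ => (9 / 20 : ℝ) ^ 2 * ((n : ℝ) + 2) ^ (2 - (s : ℝ)))
      Filter.atTop Filter.atTop := by
    refine Filter.Tendsto.const_mul_atTop (by norm_num) ?_
    refine (tendsto_rpow_atTop (by linarith)).comp ?_
    exact Filter.tendsto_atTop_add_const_right _ _ tendsto_natCast_atTop_atTop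
  obtain ⟨n, hn⟩ := (htend.eventually (Filter.eventually_gt_atTop C)).exists
  exact absurd (key n) (not_le.2 hn)

end Run7.h519
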