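import Mathlib
import Pool.Agent.Run7.h519.AffDims

/-!
# The two open sets of translations
-/

namespace Run7.h519

open Set Metric
open scoped ENNReal NNReal

/-! ### The special map in the leftmost position -/

section left

variable {t : Fin 10 → P2} {F : Set P2}

theorem t0_left (ht : t ∈ UU (-(1 / 10))) : t 0 0 < -(9 / 100) := by
  have := ht 0 0
  simp only [cen, if_true, abs_lt] at this
  linarith [this.2]

theorem ti_left (ht : t ∈ UU (-(1 / 10))) {i : Fin 10} (hi : i ≠ 0) : t 0 0 + 2 / 25 ≤ t i 0 := by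
  have h1 := ht i 0
  have h2 := cen_nonneg (x₀ := -(1 / 10)) hi 0
  have h3 := t0_left ht
  rw [abs_lt] at h1
  linarith [h1.1]

theorem ti_ge (ht : t ∈ UU (-(1 / 10))) (i : Fin 10) : t 0 0 ≤ t i 0 := by
  by_cases hi : i = 0
  · rw [hi]
  · linarith [ti_left ht hi]

/-- the fixed point of the special map -/
noncomputable def PP (t : Fin 10 → P2) : P2 := WithLp.toLp 2 ![5 / 3 * t 0 0, 5 / 4 * t 0 1]

theorem PP_mem (hF : IsAttractor AA t F) : PP t ∈ F := by
  have : ({PP t} : Set P2) ⊆ F := by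
    refine sub_attractor hF isCompact_singleton fun z hz => ⟨0, PP t, rfl, ?_⟩
    rw [mem_singleton_iff.1 hz]
    ext k
    fin_cases k
    · simp only [Fin.zero_eta]
      rw [fst_map]
      simp [PP]; ring
    · simp only [Fin.mk_one]
      rw [snd_map]
      simp [PP, be]; ring
  exact this rfl

theorem left_min (hF : IsAttractor AA t F) (ht : t ∈ UU (-(1 / 10))) {z : P2} (hz : z ∈ F) :
    5 / 3 * t 0 0 ≤ z 0 := by
  have hcont : Continuous fun z : P2 => z 0 := by fun_prop
  obtain ⟨y, hy, hmin⟩ := hF.2.1.exists_isMinOn hF.1 hcont.continuousOn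
  obtain ⟨i, w, hw, hyw⟩ := mem_of hF hy
  have h1 : y 0 ≤ w 0 := hmin hw
  have h2 : y 0 ≤ z 0 := hmin hz
  have h3 := fst_map t i w
  rw [← hyw] at h3
  have h4 := ti_ge ht i
  linarith

theorem strip (hF : IsAttractor AA t F) (ht : t ∈ UU (-(1 / 10))) (k : ℕ) :
    ∀ z ∈ F, z 0 < 5 / 3 * t 0 0 + (2 / 5) ^ k * (2 / 25) →
      |z 1 - 5 / 4 * t 0 1| ≤ 2 * (1 / 5) ^ k := by
  induction k with
  | zero =>
    intro z hz _
    have hb := t_bounds (x₀ := -(1 / 10)) le_rfl (by norm_num) ht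
    have h1 := box hF hb hz 1
    have h2 := box hF hb (PP_mem hF) 1
    have h3 : PP t 1 = 5 / 4 * t 0 1 := by simp [PP]
    rw [h3] at h2
    rw [abs_le]
    constructor <;> simp <;> linarith [h1.1, h1.2, h2.1, h2.2]
  | succ k ih =>
    intro z hz hlt
    obtain ⟨i, w, hw, hzw⟩ := mem_of hF hz
    have h0 := fst_map t i w
    rw [← hzw] at h0
    have h1 := left_min hF ht hw
    have hk : (2 / 5 : ℝ) ^ (k + 1) ≤ 1 := pow_le_one₀ (by norm_num) (by norm_num)
    have hi : i = 0 := by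
      by_contra hi
      have := ti_left ht hi
      nlinarith
    subst hi
    have h2 : w 0 < 5 / 3 * t 0 0 + (2 / 5) ^ k * (2 / 25) := by
      rw [pow_succ] at hlt
      linarith
    have h3 := ih w hw h2
    have h4 := snd_map t 0 w
    rw [← hzw] at h4
    have h5 : be 0 = 1 / 5 := by simp [be]
    rw [h5] at h4
    have h6 : z 1 - 5 / 4 * t 0 1 = 1 / 5 * (w 1 - 5 / 4 * t 0 1) := by rw [h4]; ring
    rw [h6, abs_mul, abs_of_pos (by norm_num : (0 : ℝ) < 1 / 5), pow_succ]
    linarith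

theorem hasCover_strip (hF : IsAttractor AA t F) (ht : t ∈ UU (-(1 / 10))) (k : ℕ) :
    HasCover (closedBall (PP t) ((2 / 5) ^ k * (1 / 25)) ∩ F) (8 * (1 / 5) ^ k)
      (⌊(2 : ℝ) ^ k / 100⌋₊ + 1) := by
  set N := ⌊(2 : ℝ) ^ k / 100⌋₊ + 1 with hN
  have hp : (0 : ℝ) < (1 / 5) ^ k := by positivity
  refine ⟨fun j => {z | 5 / 3 * t 0 0 + (j : ℕ) * (4 * (1 / 5) ^ k) ≤ z 0 ∧
    z 0 ≤ 5 / 3 * t 0 0 + ((j : ℕ) + 1) * (4 * (1 / 5) ^ k) ∧
    |z 1 - 5 / 4 * t 0 1| ≤ 2 * (1 / 5) ^ k}, fun j => ?_, ?_⟩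
  · refine ediam_le fun z hz w hw => ?_
    rw [edist_dist]
    refine ENNReal.ofReal_le_ofReal ?_
    rw [dist_eq_norm]
    refine (norm_le_coord _).trans ?_
    obtain ⟨h1, h2, h3⟩ := hz
    obtain ⟨h4, h5, h6⟩ := hw
    rw [abs_le] at h3 h6
    have e0 : |(z - w) 0| ≤ 4 * (1 / 5) ^ k := by
      rw [abs_le]
      simp only [PiLp.sub_apply]
      constructor <;> linarith
    have e1 : |(z - w) 1| ≤ 4 * (1 / 5) ^ k := by
      rw [abs_le]
      simp only [PiLp.sub_apply]
      constructor <;> linarith [h3.1, h3.2, h6.1, h6.2]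
    linarith
  · rintro z ⟨hzb, hzF⟩
    rw [mem_closedBall, dist_eq_norm] at hzb
    have h0 := (coord_le_norm (z - PP t) 0).trans hzb
    have hP : PP t 0 = 5 / 3 * t 0 0 := by simp [PP]
    rw [PiLp.sub_apply, hP, abs_le] at h0
    have hlt : z 0 < 5 / 3 * t 0 0 + (2 / 5) ^ k * (2 / 25) := by
      have : (0 : ℝ) < (2 / 5) ^ k := by positivity
      linarith [h0.2]
    have hs := strip hF ht k z hzF hlt
    have hmin := left_min hF ht hzF
    set u : ℝ := (z 0 - 5 / 3 * t 0 0) / (4 * (1 / 5) ^ k) with hu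
    have hu0 : 0 ≤ u := by rw [hu]; apply div_nonneg <;> linarith
    have hu1 : u ≤ (2 : ℝ) ^ k / 100 := by
      rw [hu, div_le_iff₀ (by positivity)]
      have e : (2 : ℝ) ^ k / 100 * (4 * (1 / 5) ^ k) = (2 / 5) ^ k * (1 / 25) := by
        rw [div_pow, div_pow]; field_simp; norm_num
      rw [e]
      linarith [h0.2]
    have hj : ⌊u⌋₊ < N := by
      rw [hN]
      exact Nat.lt_succ_of_le (Nat.floor_le_floor hu1)
    have hz0 : z 0 = 5 / 3 * t 0 0 + u * (4 * (1 / 5) ^ k) := by
      rw [hu]; field_simp; ring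
    refine mem_iUnion.2 ⟨⟨⌊u⌋₊, hj⟩, ?_, ?_, hs⟩
    · rw [hz0]
      have := Nat.floor_le hu0
      simp only
      gcongr
    · rw [hz0]
      have := (Nat.lt_floor_add_one u).le
      simp only
      gcongr

theorem ediam_ge (hQ : QQ ⊆ F) : ENNReal.ofReal (9 / 10) ≤ ediam F := by
  have h1 : (WithLp.toLp 2 fun _ => 1 / 20 : P2) ∈ F := hQ fun k => by
    norm_num
  have h2 : (WithLp.toLp 2 fun _ => 19 / 20 : P2) ∈ F := hQ fun k => by
    norm_num
  refine le_trans ?_ (edist_le_ediam_of_mem h2 h1)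
  rw [edist_dist]
  refine ENNReal.ofReal_le_ofReal ?_
  rw [dist_eq_norm]
  refine le_trans ?_ (coord_le_norm _ 0)
  simp only [PiLp.sub_apply]
  rw [abs_of_nonneg] <;> norm_num

theorem lowerDim_le_one (hF : IsAttractor AA t F) (ht : t ∈ UU (-(1 / 10))) : lowerDim F ≤ 1 := by
  refine iSup₂_le fun s hs => ?_
  obtain ⟨C, hC, hb⟩ := hs
  by_contra hcon
  push Not at hcon
  have hs1 : (1 : ℝ) < s := by exact_mod_cast hcon
  have hQ := QQ_sub hF ht
  have key : ∀ k : ℕ, 8 ≤ k → C * ((2 : ℝ) ^ k / 200) ^ (s : ℝ) ≤ 3 * ((2 : ℝ) ^ k / 100) := by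
    intro k hk
    have h2k : (256 : ℝ) ≤ 2 ^ k := by
      calc (256 : ℝ) = 2 ^ 8 := by norm_num
        _ ≤ 2 ^ k := pow_le_pow_right₀ (by norm_num) hk
    have hR : 8 * (1 / 5 : ℝ) ^ k < (2 / 5) ^ k * (1 / 25) := by
      have e : (2 / 5 : ℝ) ^ k = 2 ^ k * (1 / 5) ^ k := by rw [← mul_pow]; norm_num
      rw [e]
      have : (0 : ℝ) < (1 / 5) ^ k := by positivity
      nlinarith
    have hR1 : (2 / 5 : ℝ) ^ k ≤ 1 := pow_le_one₀ (by norm_num) (by norm_num)
    have h1 := hb (PP t) (PP_mem hF) (8 * (1 / 5) ^ k) ((2 / 5) ^ k * (1 / 25)) (by positivity) hR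
      ((ENNReal.ofReal_le_ofReal (by linarith)).trans (ediam_ge hQ))
    have h2 := h1.trans (covNum_le (hasCover_strip hF ht k))
    have e : (2 / 5 : ℝ) ^ k * (1 / 25) / (8 * (1 / 5) ^ k) = 2 ^ k / 200 := by
      rw [div_pow, div_pow]; field_simp; norm_num
    rw [e, ← ENNReal.ofReal_natCast, ENNReal.ofReal_le_ofReal_iff (by positivity)] at h2
    refine h2.trans ?_
    push_cast
    have := Nat.floor_le (by positivity : (0 : ℝ) ≤ 2 ^ k / 100)
    linarith
  have key2 : ∀ k : ℕ, 8 ≤ k → C * ((2 : ℝ) ^ k / 200) ^ ((s : ℝ) - 1) ≤ 6 := by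
    intro k hk
    have h1 := key k hk
    have hpos : (0 : ℝ) < 2 ^ k / 200 := by positivity
    rw [Real.rpow_sub hpos, Real.rpow_one, ← mul_div_assoc, div_le_iff₀ hpos]
    linarith
  have htend : Filter.Tendsto (fun k : ℕ => C * ((2 : ℝ) ^ k / 200) ^ ((s : ℝ) - 1))
      Filter.atTop Filter.atTop := by
    refine Filter.Tendsto.const_mul_atTop hC ?_
    refine (tendsto_rpow_atTop (by linarith)).comp ?_
    refine Filter.Tendsto.atTop_div_const (by norm_num) ?_
    exact tendsto_pow_atTop_atTop_of_one_lt (by norm_num)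
  obtain ⟨k, hk1, hk2⟩ := ((htend.eventually (Filter.eventually_gt_atTop 6)).and
    (Filter.eventually_ge_atTop 8)).exists
  exact absurd (key2 k hk2) (not_le.2 hk1)

end left

/-! ### The special map in the middle -/

section middle

variable {t : Fin 10 → P2} {F : Set P2}

theorem middle_mem (hF : IsAttractor AA t F) (ht : t ∈ UU (3 / 10)) {w : P2} (hw : w ∈ F)
    (k : Fin 2) : 1 / 10 ≤ (AA 0 w + t 0) k ∧ (AA 0 w + t 0) k ≤ 9 / 10 := by
  have hb := t_bounds (x₀ := 3 / 10) (by norm_num) (by norm_num) ht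
  obtain ⟨b, hb1, hb2, hb3⟩ := coord_map t 0 w k
  rw [hb3]
  have h1 := box hF hb hw k
  have h2 := ht 0 k
  have h3 : 3 / 10 ≤ cen (3 / 10) 0 k ∧ cen (3 / 10) 0 k ≤ 2 / 5 := by
    unfold cen
    rw [if_pos rfl]
    split_ifs <;> norm_num
  rw [abs_lt] at h2
  constructor
  · nlinarith [h1.1, h2.1, h3.1]
  · have : b * w k ≤ 2 / 5 * (11 / 10) := by
      by_cases hw0 : 0 ≤ w k
      · exact mul_le_mul hb2 h1.2 hw0 (by norm_num)
      · push Not at hw0
        nlinarith
    linarith [h2.2, h3.2]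

/-- the part of `F` in a ball contains a square of comparable size -/
theorem sq_claim (hF : IsAttractor AA t F) (ht : t ∈ UU (3 / 10)) (n : ℕ) :
    ∀ x ∈ F, ∀ R : ℝ, 5 / 2 * (2 / 5) ^ n ≤ R → R ≤ 25 / 4 →
      HasSq (closedBall x R ∩ F) (R / 50) := by
  have hb := t_bounds (x₀ := 3 / 10) (by norm_num) (by norm_num) ht
  have hQ := QQ_sub hF ht
  have base : ∀ x ∈ F, ∀ R : ℝ, 5 / 2 ≤ R → R ≤ 25 / 4 →
      HasSq (closedBall x R ∩ F) (R / 50) := by
    intro x hx R hR1 hR2
    refine hasSq_QQ.mono (subset_inter (fun z hz => ?_) hQ) (by linarith)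
    rw [mem_closedBall, dist_eq_norm]
    refine (norm_le_coord _).trans ?_
    have e : ∀ k, |(z - x) k| ≤ 23 / 20 := by
      intro k
      have h0 := box hF hb hx k
      have h2 := hz k
      rw [abs_le]; simp only [PiLp.sub_apply]; constructor <;> linarith [h0.1, h0.2, h2.1, h2.2]
    linarith [e 0, e 1]
  induction n with
  | zero => simpa using base
  | succ n ih =>
    intro x hx R hR1 hR2
    by_cases hR : 5 / 2 ≤ R
    · exact base x hx R hR hR2
    push Not at hR
    have hRpos : 0 < R := lt_of_lt_of_le (by positivity) hR1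
    obtain ⟨i, w, hw, hxw⟩ := mem_of hF hx
    by_cases hi : i = 0
    · subst hi
      have hm : ∀ k, 1 / 10 ≤ x k ∧ x k ≤ 9 / 10 := by
        rw [hxw]; exact middle_mem hF ht hw
      -- a square of side `min R (1/20)` centred at `x`
      have hsq : ∀ ρ : ℝ, ρ ≤ 1 / 20 → ρ ≤ R → HasSq (closedBall x R ∩ F) ρ := by
        intro ρ h1 h2
        refine ⟨fun k => x k - ρ / 2, fun z hz => ⟨?_, hQ fun k => ?_⟩⟩
        · rw [mem_closedBall, dist_eq_norm]
          refine (norm_le_coord _).trans ?_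
          have e : ∀ k, |(z - x) k| ≤ ρ / 2 := by
            intro k
            have h0 := hz k
            rw [abs_le]; simp only [PiLp.sub_apply]; constructor <;> linarith [h0.1, h0.2]
          linarith [e 0, e 1]
        · have h0 := hz k
          have h3 := hm k
          constructor <;> linarith [h0.1, h0.2, h3.1, h3.2]
      by_cases h20 : R ≤ 1 / 20
      · exact (hsq R h20 le_rfl).mono subset_rfl (by linarith)
      · push Not at h20
        exact (hsq (1 / 20) le_rfl h20.le).mono subset_rfl (by linarith)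
    · have hbe : be i = 2 / 5 := by simp [be, hi]
      obtain ⟨a, ha⟩ := ih w hw (5 / 2 * R) (by rw [pow_succ] at hR1; linarith) (by linarith)
      refine ⟨fun k => 2 / 5 * a k + t i k, fun z hz => ?_⟩
      have hz' := ha (WithLp.toLp 2 fun k => 5 / 2 * (z k - t i k)) fun k => by
        have h0 := hz k
        simp only
        constructor <;> linarith [h0.1, h0.2]
      have hzeq : z = AA i (WithLp.toLp 2 fun k => 5 / 2 * (z k - t i k)) + t i := by
        ext k
        fin_cases k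
        · have := fst_map t i (WithLp.toLp 2 fun k => 5 / 2 * (z k - t i k))
          simp only [Fin.zero_eta]
          rw [this]
          simp only
          ring
        · have := snd_map t i (WithLp.toLp 2 fun k => 5 / 2 * (z k - t i k))
          simp only [Fin.mk_one]
          rw [this, hbe]
          simp only
          ring
      refine ⟨?_, ?_⟩
      · rw [mem_closedBall, hzeq, hxw, dist_add_right, dist_eq_norm, ← map_sub, AA_eq]
        refine (Dg_norm_le (be_pos i).le (be_le i) _).trans ?_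
        have h1 := hz'.1
        rw [mem_closedBall, dist_eq_norm] at h1
        linarith
      · rw [hzeq]
        exact map_mem hF hz'.2 i

theorem ediam_le_three (hF : IsAttractor AA t F) (ht : t ∈ UU (3 / 10)) :
    ediam F ≤ ENNReal.ofReal 3 := by
  have hb := t_bounds (x₀ := 3 / 10) (by norm_num) (by norm_num) ht
  refine ediam_le fun z hz w hw => ?_
  rw [edist_dist]
  refine ENNReal.ofReal_le_ofReal ?_
  rw [dist_eq_norm]
  refine (norm_le_coord _).trans ?_
  have e : ∀ k, |(z - w) k| ≤ 13 / 10 := by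
    intro k
    have h0 := box hF hb hz k
    have h1 := box hF hb hw k
    rw [abs_le]; simp only [PiLp.sub_apply]; constructor <;> linarith [h0.1, h0.2, h1.1, h1.2]
  linarith [e 0, e 1]

theorem two_le_lowerDim (hF : IsAttractor AA t F) (ht : t ∈ UU (3 / 10)) : 2 ≤ lowerDim F := by
  refine le_iSup₂_of_le (2 : ℝ≥0) ?_ (by norm_num)
  refine ⟨(1 / 100) ^ 2, by norm_num, fun x hx r R hr hrR hR => ?_⟩
  have hR3 : R ≤ 3 := by
    have := hR.trans (ediam_le_three hF ht)
    rwa [ENNReal.ofReal_le_ofReal_iff (by norm_num)] at this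
  have hR0 : 0 < R := hr.trans hrR
  obtain ⟨n, hn⟩ := exists_pow_lt_of_lt_one (show (0 : ℝ) < 2 / 5 * R by positivity)
    (show (2 / 5 : ℝ) < 1 by norm_num)
  have hsq := sq_claim hF ht n x hx R (by linarith) (by linarith)
  refine le_trans ?_ (hsq.covNum_ge (by positivity) hr)
  refine ENNReal.ofReal_le_ofReal ?_
  have : ((2 : ℝ≥0) : ℝ) = ((2 : ℕ) : ℝ) := by norm_num
  rw [this, Real.rpow_natCast]
  have e : R / 50 / (2 * r) = 1 / 100 * (R / r) := by field_simp; norm_num
  rw [e, mul_pow]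

end middle

end Run7.h519
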